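import Pool.Agent.W819.EN.Stm2

/-!
# EN-FINB: almost sure upper bounds
-/

set_option autoImplicit false

namespace Pool.Agent.W230.EN

open H974 Finset Filter Topology MeasureTheory Pool.Agent.W819.EN
open scoped Real

/-! ### the abstract part -/

lemma card_vb (n : ℕ) : ((vb n).card : ℝ) = (2 * n + 1) ^ 2 := by
  unfold vb
  rw [Finset.card_product, Int.card_Icc]
  have h : ((n : ℤ) + 1 - -(n : ℤ)).toNat = 2 * n + 1 := by omega
  rw [h]
  push_cast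
  ring

lemma rpow_shift (x K n : ℝ) (hK : 0 < K) (h1 : K ≤ n) (h2 : n ≤ 2 * K) :
    K ^ x ≤ max 1 ((2 : ℝ) ^ (-x)) * n ^ x := by
  have hn : 0 < n := hK.trans_le h1
  rcases le_or_gt 0 x with hx | hx
  · calc K ^ x ≤ n ^ x := Real.rpow_le_rpow hK.le h1 hx
      _ = 1 * n ^ x := (one_mul _).symm
      _ ≤ max 1 ((2 : ℝ) ^ (-x)) * n ^ x :=
        mul_le_mul_of_nonneg_right (le_max_left _ _) (Real.rpow_nonneg hn.le _)
  · have h3 : K ^ x ≤ (n / 2) ^ x :=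
      Real.rpow_le_rpow_of_nonpos (by positivity) (by linarith) hx.le
    calc K ^ x ≤ (n / 2) ^ x := h3
      _ = (2 : ℝ) ^ (-x) * n ^ x := by
        rw [Real.div_rpow hn.le (by norm_num), Real.rpow_neg (by norm_num)]
        field_simp
      _ ≤ max 1 ((2 : ℝ) ^ (-x)) * n ^ x :=
        mul_le_mul_of_nonneg_right (le_max_right _ _) (Real.rpow_nonneg hn.le _)

open Classical in
lemma borel {Ω : Type*} [MeasurableSpace Ω] (μ : Measure Ω) [IsProbabilityMeasure μ]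
    (g ε C : ℝ) (hε : 0 < ε) (hC : 0 < C) (B : ℕ → Vtx → Set Ω)
    (hmeas : ∀ k v, MeasurableSet (B k v))
    (hB : ∀ k v, μ.real (B k v) ≤ C * ((2 : ℝ) ^ k) ^ (-g + ε / 4)) (X : ℕ → Ω → ℕ)
    (hX : ∀ k n ω, 2 ^ k ≤ n → n < 2 ^ (k + 1) →
      X n ω ≤ ((vb (2 ^ (k + 1))).filter (fun v => ω ∈ B k v)).card) :
    ∀ᵐ ω ∂μ, ∀ᶠ n : ℕ in atTop, (X n ω : ℝ) ≤ (n : ℝ) ^ (2 - g + ε) := by
  set A : ℕ → Ω → ℕ := fun k ω => ((vb (2 ^ (k + 1))).filter (fun v => ω ∈ B k v)).card with hA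
  set y : ℕ → ℝ := fun k => ((2 : ℝ) ^ k) ^ (2 - g + ε / 2) with hy
  have hK : ∀ k : ℕ, (0 : ℝ) < (2 : ℝ) ^ k := fun k => by positivity
  have hypos : ∀ k, 0 < y k := fun k => Real.rpow_pos_of_pos (hK k) _
  have hAsum : ∀ k ω, (A k ω : ℝ) = ∑ v ∈ vb (2 ^ (k + 1)), (B k v).indicator 1 ω := by
    intro k ω
    simp only [hA, Finset.card_filter, Nat.cast_sum]
    refine Finset.sum_congr rfl fun v _ => ?_
    by_cases h : ω ∈ B k v <;> simp [h]
  have hint : ∀ k v, Integrable ((B k v).indicator (1 : Ω → ℝ)) μ := fun k v =>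
    (integrable_const (1 : ℝ)).indicator (hmeas k v)
  have hintA : ∀ k, Integrable (fun ω => (A k ω : ℝ)) μ := by
    intro k
    simp_rw [hAsum]
    exact integrable_finsetSum _ fun v _ => hint k v
  have hEA : ∀ k, ∫ ω, (A k ω : ℝ) ∂μ ≤ 25 * C * ((2 : ℝ) ^ k) ^ (2 - g + ε / 4) := by
    intro k
    simp_rw [hAsum]
    rw [integral_finsetSum _ fun v _ => hint k v]
    have h1 : ∀ v ∈ vb (2 ^ (k + 1)), ∫ ω, (B k v).indicator (1 : Ω → ℝ) ω ∂μ ≤
        C * ((2 : ℝ) ^ k) ^ (-g + ε / 4) := by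
      intro v _
      rw [integral_indicator_one (hmeas k v)]
      exact hB k v
    refine (Finset.sum_le_sum h1).trans ?_
    rw [Finset.sum_const, nsmul_eq_mul, card_vb]
    push_cast
    have h2 : ((2 : ℝ) * 2 ^ (k + 1) + 1) ^ 2 ≤ 25 * ((2 : ℝ) ^ k) ^ 2 := by
      have h3 : (1 : ℝ) ≤ (2 : ℝ) ^ k := one_le_pow₀ (by norm_num)
      have h4 : (2 : ℝ) * 2 ^ (k + 1) + 1 ≤ 5 * 2 ^ k := by
        rw [pow_succ]
        linarith
      calc ((2 : ℝ) * 2 ^ (k + 1) + 1) ^ 2 ≤ (5 * 2 ^ k) ^ 2 :=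
            pow_le_pow_left₀ (by positivity) h4 2
        _ = 25 * ((2 : ℝ) ^ k) ^ 2 := by ring
    have h4 : ((2 : ℝ) ^ k) ^ (2 - g + ε / 4) = ((2 : ℝ) ^ k) ^ 2 * ((2 : ℝ) ^ k) ^ (-g + ε / 4) := by
      rw [← Real.rpow_natCast ((2 : ℝ) ^ k) 2, ← Real.rpow_add (hK k)]
      congr 1
      push_cast
      ring
    rw [h4]
    have h5 : 0 ≤ C * ((2 : ℝ) ^ k) ^ (-g + ε / 4) :=
      mul_nonneg hC.le (Real.rpow_nonneg (hK k).le _)
    calc ((2 : ℝ) * 2 ^ (k + 1) + 1) ^ 2 * (C * ((2 : ℝ) ^ k) ^ (-g + ε / 4))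
        ≤ (25 * ((2 : ℝ) ^ k) ^ 2) * (C * ((2 : ℝ) ^ k) ^ (-g + ε / 4)) :=
          mul_le_mul_of_nonneg_right h2 h5
      _ = _ := by ring
  set r : ℝ := (2 : ℝ) ^ (-(ε / 4)) with hr
  have hr0 : 0 ≤ r := Real.rpow_nonneg (by norm_num) _
  have hr1 : r < 1 := Real.rpow_lt_one_of_one_lt_of_neg (by norm_num) (by linarith)
  have hmark : ∀ k, μ.real {ω | y k ≤ (A k ω : ℝ)} ≤ 25 * C * r ^ k := by
    intro k
    have h1 := mul_meas_ge_le_integral_of_nonneg (μ := μ) (f := fun ω => (A k ω : ℝ))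
      (Eventually.of_forall fun ω => by positivity) (hintA k) (y k)
    have h2 := h1.trans (hEA k)
    have h3 : r ^ k * y k = ((2 : ℝ) ^ k) ^ (2 - g + ε / 4) := by
      have h4 : r ^ k = ((2 : ℝ) ^ k) ^ (-(ε / 4)) := by
        rw [hr, ← Real.rpow_natCast, ← Real.rpow_mul (by norm_num), ← Real.rpow_natCast 2 k,
          ← Real.rpow_mul (by norm_num), mul_comm]
      rw [h4, hy, ← Real.rpow_add (hK k)]
      congr 1
      ring
    rw [← h3] at h2
    have h5 : y k * μ.real {ω | y k ≤ (A k ω : ℝ)} ≤ y k * (25 * C * r ^ k) := by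
      calc y k * μ.real {ω | y k ≤ (A k ω : ℝ)} ≤ 25 * C * (r ^ k * y k) := h2
        _ = _ := by ring
    exact le_of_mul_le_mul_left h5 (hypos k)
  have hsum : ∑' k, μ {ω | y k ≤ (A k ω : ℝ)} ≠ ⊤ := by
    have h1 : Summable fun k : ℕ => 25 * C * r ^ k :=
      (summable_geometric_of_lt_one hr0 hr1).mul_left _
    refine ne_top_of_le_ne_top h1.tsum_ofReal_ne_top (ENNReal.tsum_le_tsum fun k => ?_)
    rw [← ENNReal.ofReal_toReal (measure_ne_top μ _)]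
    exact ENNReal.ofReal_le_ofReal (hmark k)
  have hae := ae_eventually_notMem hsum
  filter_upwards [hae] with ω hω
  obtain ⟨k0, hk0⟩ := eventually_atTop.mp hω
  set c : ℝ := max 1 ((2 : ℝ) ^ (-(2 - g + ε / 2))) with hc
  have hlarge : ∀ᶠ n : ℕ in atTop, c ≤ (n : ℝ) ^ (ε / 2) :=
    ((tendsto_rpow_atTop (by positivity : 0 < ε / 2)).comp
      tendsto_natCast_atTop_atTop).eventually_ge_atTop c
  filter_upwards [hlarge, eventually_ge_atTop (2 ^ k0), eventually_ge_atTop 1] with n hn1 hn2 hn3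
  set k := Nat.log 2 n with hk
  have hk1 : 2 ^ k ≤ n := Nat.pow_log_le_self 2 (by omega)
  have hk2 : n < 2 ^ (k + 1) := Nat.lt_pow_succ_log_self (by norm_num) n
  have hkk : k0 ≤ k := by
    by_contra hcon
    push Not at hcon
    have : 2 ^ (k + 1) ≤ 2 ^ k0 := Nat.pow_le_pow_right (by norm_num) hcon
    omega
  have h1 := hk0 k hkk
  have h2 : (A k ω : ℝ) < y k := not_le.mp h1
  have h3 : (X n ω : ℝ) ≤ (A k ω : ℝ) := by exact_mod_cast hX k n ω hk1 hk2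
  have hnpos : (0 : ℝ) < n := by exact_mod_cast hn3
  have h4 : y k ≤ c * (n : ℝ) ^ (2 - g + ε / 2) := by
    refine rpow_shift _ _ _ (hK k) (by exact_mod_cast hk1) ?_
    have : n ≤ 2 * 2 ^ k := by rw [pow_succ] at hk2; omega
    exact_mod_cast this
  have h5 : c * (n : ℝ) ^ (2 - g + ε / 2) ≤ (n : ℝ) ^ (ε / 2) * (n : ℝ) ^ (2 - g + ε / 2) :=
    mul_le_mul_of_nonneg_right hn1 (Real.rpow_nonneg hnpos.le _)
  have h6 : (n : ℝ) ^ (ε / 2) * (n : ℝ) ^ (2 - g + ε / 2) = (n : ℝ) ^ (2 - g + ε) := by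
    rw [← Real.rpow_add hnpos]
    congr 1
    ring
  linarith

/-! ### the number of layers -/

variable {N : Finset Edg → Vtx → ℕ → ℕ → ℕ}

lemma okP2 : Ok P2 := by
  intro e
  constructor
  · change (0 : ℝ) ≤ 1 / 2
    norm_num
  · change (1 / 2 : ℝ) ≤ 1
    norm_num

lemma bx_tr (v : Vtx) (k : ℤ) : (trl v.1 v.2).mp (bx (0, 0) k) = bx v k := by
  unfold bx
  rw [trl_RE]
  congr 1 <;> ring

lemma Ex_tr (hG : Geo N) (s : ℝ) (v : Vtx) (M : ℕ) :
    Ex P2 (bx v M) (fun F => Real.exp (s * N F v 0 M)) =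
      Ex P2 (bx (0, 0) M) (fun F => Real.exp (s * N F (0, 0) 0 M)) := by
  rw [← bx_tr v M]
  have h1 : ∀ f : Finset Edg → ℝ, Ex P2 ((trl v.1 v.2).mp (bx (0, 0) M)) f =
      Ex P2 (bx (0, 0) M) (fun F => f ((trl v.1 v.2).mp F)) := fun f =>
    Ex_map P2 (trl v.1 v.2).φ.toEmbedding (bx (0, 0) M) f
  rw [h1]
  refine Ex_congr fun F _ => ?_
  have h2 := hG.tr F v (0, 0) 0 M
  simp only [zero_add] at h2
  rw [h2]

lemma markov (S : Finset Edg) (f : Finset Edg → ℕ) (s x : ℝ) (Q : Finset Edg → Prop)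
    (h : ∀ F, Q F → s * x ≤ s * f F) :
    Pr P2 S Q ≤ Real.exp (-(s * x)) * Ex P2 S (fun F => Real.exp (s * f F)) := by
  unfold Pr
  rw [← Ex_mul_left]
  refine Ex_mono okP2 fun F _ => ?_
  rw [← Real.exp_add]
  by_cases hQ : Q F
  · rw [ind_of hQ]
    apply Real.one_le_exp
    have := h F hQ
    linarith
  · rw [ind_not_of hQ]
    exact (Real.exp_pos _).le

lemma law_bound (hG : Geo N) (h1 : One N) (s ε : ℝ) (hε : 0 < ε) :
    ∃ C : ℝ, 0 < C ∧ ∀ (M : ℕ) (v : Vtx) (x : ℝ) (Q : ℕ → Prop), 1 ≤ M →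
      (∀ j : ℕ, Q j → s * x ≤ s * j) →
      (bondLaw hlf).real {ω | Q (lay N M v ω)} ≤
        Real.exp (-(s * x)) * (C * (M : ℝ) ^ (Lam s + ε)) := by
  obtain ⟨C, hC, hCb⟩ := h1 s ε hε
  refine ⟨C, hC, fun M v x Q hM hQ => ?_⟩
  have h2 := law_event hlf (bx v M) (fun F => Q (N F v 0 M))
  have h3 : (bondLaw hlf).real {ω | Q (lay N M v ω)} = Pr P2 (bx v M) (fun F => Q (N F v 0 M)) :=
    h2
  rw [h3]
  refine (markov (bx v M) (fun F => N F v 0 M) s x _ (fun F hF => hQ _ hF)).trans ?_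
  rw [Ex_tr hG]
  exact mul_le_mul_of_nonneg_left (hCb M hM).2 (Real.exp_pos _).le

lemma lay_mono (hG : Geo N) {n M : ℕ} (h : n ≤ M) (v : Vtx) (ω : sqLattice.edgeSet → Bool) :
    lay N n v ω ≤ lay N M v ω := by
  unfold lay
  have h1 : FF (bx v n) ω ∩ an v 0 n = FF (bx v M) ω ∩ an v 0 n := by
    ext e
    simp only [Finset.mem_inter, mem_FF]
    constructor
    · rintro ⟨⟨h1, h2⟩, h3⟩
      refine ⟨⟨?_, h2⟩, h3⟩
      have h' : (n : ℤ) ≤ M := by exact_mod_cast h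
      obtain ⟨x, y, _ | _⟩ := e
      · unfold bx at h1 ⊢; simp only [mem_RE_false] at h1 ⊢; omega
      · unfold bx at h1 ⊢; simp only [mem_RE_true] at h1 ⊢; omega
    · rintro ⟨⟨h1, h2⟩, h3⟩
      refine ⟨⟨?_, h2⟩, h3⟩
      unfold an at h3
      exact (Finset.mem_sdiff.mp h3).1
  rw [hG.loc (FF (bx v n) ω) v 0 n (Nat.zero_le _), h1, ← hG.loc _ v 0 n (Nat.zero_le _)]
  exact hG.mono _ v 0 0 n M le_rfl h

lemma vb_mono {n m : ℕ} (h : n ≤ m) : vb n ⊆ vb m := by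
  unfold vb
  have h' : (n : ℤ) ≤ m := by exact_mod_cast h
  exact Finset.product_subset_product (Finset.Icc_subset_Icc (by omega) h')
    (Finset.Icc_subset_Icc (by omega) h')

lemma dL_nonneg (hA : LegA) (s : ℝ) : 0 ≤ dL s :=
  le_of_tendsto hA.bot ((eventually_le_atBot s).mono fun _ ht => hA.mono.monotone ht)

lemma meas_lay (M : ℕ) (v : Vtx) (Q : ℕ → Prop) : MeasurableSet {ω | Q (lay N M v ω)} :=
  meas_event (bx v M) (fun F => Q (N F v 0 M))

theorem t_FINB (hA : LegA) {N : Finset Edg → Vtx → ℕ → ℕ → ℕ} (hG : Geo N) (h1 : One N) :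
    UpA N := by
  classical
  have h2K : ∀ k : ℕ, (0 : ℝ) < (2 : ℝ) ^ k := fun k => by positivity
  have hexp : ∀ (a : ℝ) (K : ℝ), 0 < K → Real.exp (-(a * Real.log K)) = K ^ (-a) := by
    intro a K hK
    rw [Real.rpow_def_of_pos hK]
    congr 1
    ring
  constructor
  · intro s ε hs hε
    obtain ⟨C, hC, hCb⟩ := law_bound hG h1 s (ε / 4) (by positivity)
    refine borel (bondLaw hlf) (gam s) ε (C * (2 : ℝ) ^ (-(s * dL s))) hε
      (mul_pos hC (Real.rpow_pos_of_pos (by norm_num) _))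
      (fun k v => {ω | (lay N (2 ^ k) v ω : ℝ) ≤ dL s * Real.log ((2 : ℝ) ^ (k + 1))})
      (fun k v => meas_lay (2 ^ k) v (fun j => (j : ℝ) ≤ dL s * Real.log ((2 : ℝ) ^ (k + 1))))
      ?_ _ ?_
    · intro k v
      refine (hCb (2 ^ k) v (dL s * Real.log ((2 : ℝ) ^ (k + 1)))
        (fun j => (j : ℝ) ≤ dL s * Real.log ((2 : ℝ) ^ (k + 1))) Nat.one_le_two_pow
        (fun j hj => mul_le_mul_of_nonpos_left hj hs)).trans ?_
      rw [← mul_assoc s, hexp _ _ (h2K _)]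
      push_cast
      rw [pow_succ, Real.mul_rpow (h2K k).le (by norm_num)]
      have h3 : ((2 : ℝ) ^ k) ^ (-gam s + ε / 4) =
          ((2 : ℝ) ^ k) ^ (-(s * dL s)) * ((2 : ℝ) ^ k) ^ (Lam s + ε / 4) := by
        rw [← Real.rpow_add (h2K k)]
        congr 1
        unfold gam
        ring
      rw [h3]
      exact le_of_eq (by ring)
    · intro k n ω hk1 hk2
      unfold few
      refine Finset.card_le_card ?_
      intro v hv
      rw [Finset.mem_filter] at hv ⊢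
      refine ⟨vb_mono hk2.le hv.1, ?_⟩
      have h3 : (lay N (2 ^ k) v ω : ℝ) ≤ lay N n v ω := by exact_mod_cast lay_mono hG hk1 v ω
      have hn : (0 : ℝ) < n := by
        have : 0 < n := lt_of_lt_of_le (by positivity) hk1
        exact_mod_cast this
      have h4 : Real.log n ≤ Real.log ((2 : ℝ) ^ (k + 1)) :=
        Real.log_le_log hn (by exact_mod_cast hk2.le)
      exact h3.trans (hv.2.trans (mul_le_mul_of_nonneg_left h4 (dL_nonneg hA s)))
  · intro s ε hs hε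
    obtain ⟨C, hC, hCb⟩ := law_bound hG h1 s (ε / 4) (by positivity)
    refine borel (bondLaw hlf) (gam s) ε (C * (2 : ℝ) ^ (Lam s + ε / 4)) hε
      (mul_pos hC (Real.rpow_pos_of_pos (by norm_num) _))
      (fun k v => {ω | dL s * Real.log ((2 : ℝ) ^ k) ≤ (lay N (2 ^ (k + 1)) v ω : ℝ)})
      (fun k v => meas_lay (2 ^ (k + 1)) v (fun j => dL s * Real.log ((2 : ℝ) ^ k) ≤ (j : ℝ)))
      ?_ _ ?_
    · intro k v
      refine (hCb (2 ^ (k + 1)) v (dL s * Real.log ((2 : ℝ) ^ k))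
        (fun j => dL s * Real.log ((2 : ℝ) ^ k) ≤ (j : ℝ)) Nat.one_le_two_pow
        (fun j hj => mul_le_mul_of_nonneg_left hj hs)).trans ?_
      rw [← mul_assoc s, hexp _ _ (h2K _)]
      push_cast
      rw [pow_succ, Real.mul_rpow (h2K k).le (by norm_num)]
      have h3 : ((2 : ℝ) ^ k) ^ (-gam s + ε / 4) =
          ((2 : ℝ) ^ k) ^ (-(s * dL s)) * ((2 : ℝ) ^ k) ^ (Lam s + ε / 4) := by
        rw [← Real.rpow_add (h2K k)]
        congr 1
        unfold gam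
        ring
      rw [h3]
      exact le_of_eq (by ring)
    · intro k n ω hk1 hk2
      unfold many
      refine Finset.card_le_card ?_
      intro v hv
      rw [Finset.mem_filter] at hv ⊢
      refine ⟨vb_mono hk2.le hv.1, ?_⟩
      have h3 : (lay N n v ω : ℝ) ≤ lay N (2 ^ (k + 1)) v ω := by
        exact_mod_cast lay_mono hG hk2.le v ω
      have h4 : Real.log ((2 : ℝ) ^ k) ≤ Real.log n :=
        Real.log_le_log (h2K k) (by exact_mod_cast hk1)
      exact (mul_le_mul_of_nonneg_left h4 (dL_nonneg hA s)).trans (hv.2.trans h3)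

end Pool.Agent.W230.EN
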